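import Pool.Agent.X246.DCP.Par

set_option autoImplicit false

/-!
# Convex programming relaxations of the consistency problem of DNF formulas: the upper bound
-/

namespace Pool.Agent.X246.DCP

open Finset Pool.Agent.TH689.GX Pool.Agent.TH689.QX

open scoped Classical

/-- the terms of at most `w` literals -/
abbrev Tm (w n : ℕ) : Type := {t : Finset (Fin n × Bool) // t.card ≤ w}

/-- the number of sets with at most `w` elements -/
theorem card_sets_le {α : Type} [Fintype α] (w : ℕ) :
    Fintype.card {t : Finset α // t.card ≤ w} ≤ (Fintype.card α + 1) ^ w := by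
  have h : Function.Surjective (fun f : Fin w → Option α =>
      (if h : ((univ.biUnion fun i => (f i).toFinset) : Finset α).card ≤ w then
        (⟨univ.biUnion fun i => (f i).toFinset, h⟩ : {t : Finset α // t.card ≤ w})
      else ⟨∅, by simp⟩)) := by
    rintro ⟨t, ht⟩
    refine ⟨fun i => if h : i.val < t.card then some (t.equivFin.symm ⟨i.val, h⟩).1 else none, ?_⟩
    have h1 : (univ.biUnion fun i : Fin w => (if h : i.val < t.card then
        some (t.equivFin.symm ⟨i.val, h⟩).1 else none).toFinset) = t := by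
      ext x
      rw [mem_biUnion]
      constructor
      · rintro ⟨i, -, hi⟩
        by_cases h : i.val < t.card
        · rw [dif_pos h, Option.toFinset_some, mem_singleton] at hi
          rw [hi]
          exact (t.equivFin.symm ⟨i.val, h⟩).2
        · rw [dif_neg h, Option.toFinset_none] at hi
          exact absurd hi (notMem_empty _)
      · intro hx
        have h2 : (t.equivFin ⟨x, hx⟩).val < t.card := (t.equivFin ⟨x, hx⟩).isLt
        refine ⟨⟨(t.equivFin ⟨x, hx⟩).val, by omega⟩, mem_univ _, ?_⟩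
        rw [dif_pos h2, Option.toFinset_some, mem_singleton]
        have h3 : (⟨(t.equivFin ⟨x, hx⟩).val, h2⟩ : Fin t.card) = t.equivFin ⟨x, hx⟩ := rfl
        rw [h3, Equiv.symm_apply_apply]
    show (if h : _ then _ else _) = _
    rw [dif_pos (by rw [h1]; exact ht)]
    exact Subtype.ext h1
  have h2 := Fintype.card_le_of_surjective _ h
  rw [Fintype.card_fun, Fintype.card_option, Fintype.card_fin] at h2
  exact h2

theorem card_tm (w n : ℕ) : Fintype.card (Tm w n) ≤ (2 * n + 1) ^ w := by
  have h := card_sets_le (α := Fin n × Bool) w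
  rw [Fintype.card_prod, Fintype.card_fin, Fintype.card_bool, mul_comm n 2] at h
  exact h

section lp

variable {s w n S : ℕ}

/-- the term `t` is true at `x` -/
def hold (t : Finset (Fin n × Bool)) (x : Fin n → Bool) : Prop := ∀ l ∈ t, x l.1 = l.2

/-- the coefficients of the constraint of an example -/
noncomputable def co (e : Fin S ≃ Tm w n) (x : Fin n → Bool) : Fin S → ℝ :=
  fun j => if hold (e j).1 x then 1 else 0

/-- the vector of a formula -/
noncomputable def vec (e : Fin S ≃ Tm w n) (F : Finset (Finset (Fin n × Bool))) : Fin S → ℝ :=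
  fun j => if (e j).1 ∈ F then 1 else 0

/-- the convex set of a labelled example -/
def cset (b : Bool) : Set (Fin 1 → ℝ) := if b = true then {z | 1 ≤ z 0} else {z | z 0 ≤ 0}

theorem cset_convex (b : Bool) : Convex ℝ (cset b) := by
  cases b
  · unfold cset
    rw [if_neg (by decide)]
    intro p hp q hq α β hα hβ _
    simp only [Set.mem_ofPred_eq, Pi.add_apply, Pi.smul_apply, smul_eq_mul] at hp hq ⊢
    nlinarith [mul_nonpos_of_nonneg_of_nonpos hα hp, mul_nonpos_of_nonneg_of_nonpos hβ hq]
  · unfold cset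
    rw [if_pos rfl]
    exact half_convex 1

/-- The linear programming relaxation with one nonnegative variable for every term. -/
noncomputable def lp (s : ℕ) (e : Fin S ≃ Tm w n) :
    Scheme (Dnf s w n) ((Fin n → Bool) × Bool) 0 S 1 1 where
  d := S
  space := ⊤
  bin := fun i => i.elim0
  map := fun j => aff (Pi.single j 1)
  set := fun _ => half
  set_convex := fun _ => half_convex 0
  locMap := fun c _ => aff (co e c.1)
  locSet := fun c _ => cset c.2
  locSet_convex := fun c _ => cset_convex c.2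
  point := fun F => vec e F.1

theorem vec_nonneg (e : Fin S ≃ Tm w n) (F : Finset (Finset (Fin n × Bool))) (j : Fin S) :
    0 ≤ vec e F j := by
  unfold vec
  split_ifs <;> norm_num

theorem co_nonneg (e : Fin S ≃ Tm w n) (x : Fin n → Bool) (j : Fin S) : 0 ≤ co e x j := by
  unfold co
  split_ifs <;> norm_num

theorem single_val (u : Fin S → ℝ) (j : Fin S) : aff (Pi.single j 1) u 0 = u j := by
  rw [aff_apply, sum_eq_single j]
  · rw [Pi.single_eq_same, one_mul]
  · intro i _ hi
    rw [Pi.single_eq_of_ne hi, zero_mul]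
  · intro h
    exact absurd (mem_univ _) h

theorem lp_correct (e : Fin S ≃ Tm w n) (F : Dnf s w n) :
    (lp s e).CorrectAt (Wrong Dnf.eval) F := by
  refine ⟨AffineSubspace.mem_top _ _ _, fun i => i.elim0, ?_, ?_⟩
  · intro j
    show (0 : ℝ) ≤ aff (Pi.single j 1) (vec e F.1) 0
    rw [single_val]
    exact vec_nonneg e F.1 j
  · rintro ⟨x, b⟩ _ hc
    have hc' : F.eval x = b := by
      by_contra h
      exact hc h
    show aff (co e x) (vec e F.1) ∈ cset b
    cases b
    · show aff (co e x) (vec e F.1) ∈ (if false = true then _ else _)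
      rw [if_neg (by decide)]
      show aff (co e x) (vec e F.1) 0 ≤ 0
      rw [aff_apply]
      apply le_of_eq
      apply sum_eq_zero
      intro j _
      have h1 : ¬ (hold (e j).1 x ∧ (e j).1 ∈ F.1) := by
        rintro ⟨h1, h2⟩
        have h3 : F.eval x = true := decide_eq_true ⟨_, h2, h1⟩
        rw [hc'] at h3
        exact absurd h3 (by decide)
      unfold co vec
      by_cases h2 : hold (e j).1 x
      · rw [if_neg (fun h3 => h1 ⟨h2, h3⟩), mul_zero]
      · rw [if_neg h2, zero_mul]
    · show aff (co e x) (vec e F.1) ∈ (if true = true then _ else _)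
      rw [if_pos rfl]
      show 1 ≤ aff (co e x) (vec e F.1) 0
      rw [aff_apply]
      obtain ⟨t, ht, hx⟩ := of_decide_eq_true hc'
      obtain ⟨j, hj⟩ : ∃ j, j = e.symm ⟨t, F.2.2 t ht⟩ := ⟨_, rfl⟩
      have hj2 : (e j).1 = t := by rw [hj, Equiv.apply_symm_apply]
      have h1 := single_le_sum (f := fun i => co e x i * vec e F.1 i) (s := univ)
        (fun i _ => mul_nonneg (co_nonneg e x i) (vec_nonneg e F.1 i)) (mem_univ j)
      refine le_trans (le_of_eq ?_) h1
      show 1 = co e x j * vec e F.1 j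
      have hx' : hold t x := hx
      unfold co vec
      rw [hj2, if_pos hx', if_pos ht, one_mul]

/-- the value of a constraint at a formula -/
theorem val_bd (e : Fin S ≃ Tm w n) (F : Dnf s w n) (x : Fin n → Bool) :
    0 ≤ ∑ j, co e x j * vec e F.1 j ∧ ∑ j, co e x j * vec e F.1 j ≤ s := by
  refine ⟨sum_nonneg fun j _ => mul_nonneg (co_nonneg e x j) (vec_nonneg e F.1 j), ?_⟩
  have h1 : ∑ j, co e x j * vec e F.1 j ≤ ∑ j, vec e F.1 j := by
    refine sum_le_sum fun j _ => ?_
    refine mul_le_of_le_one_left (vec_nonneg e F.1 j) ?_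
    unfold co
    split_ifs <;> norm_num
  have h2 : ∑ j, vec e F.1 j ≤ (F.1.card : ℝ) := by
    unfold vec
    rw [sum_boole]
    exact_mod_cast card_le_card_of_injOn (fun j => (e j).1)
      (fun j hj => (mem_filter.1 (mem_coe.1 hj)).2)
      (fun j _ j' _ h => e.injective (Subtype.ext h))
  have h3 : (F.1.card : ℝ) ≤ s := by exact_mod_cast F.2.1
  linarith

/-- The relaxation rejects all samples which are not consistent with any DNF formula of width
`w`. -/
theorem lp_rejects {T : ℕ} (e : Fin S ≃ Tm w n) (y : Fin T → (Fin n → Bool) × Bool) {δ : ℝ}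
    (hδ0 : 0 ≤ δ) (hδ : (1 + s * T) * δ < 1)
    (hy : ∀ G : Finset (Tm w n), ∃ t, val (G.image fun r => r.1) (y t).1 ≠ (y t).2) :
    Rejects (lp s e) (Wrong Dnf.eval) y δ := by
  left
  suffices hmain : ∀ u : Fin S → ℝ, ¬ Fits (lp s e) (Wrong Dnf.eval) y δ u from hmain
  rintro u ⟨-, -, hmap, hcl⟩
  have hnn : ∀ j, 0 ≤ u j := by
    intro j
    have h1 : (0 : ℝ) ≤ aff (Pi.single j 1) u 0 := hmap j
    rwa [single_val] at h1
  have hsT : (0 : ℝ) ≤ s * T := by positivity
  have hδ1 : δ < 1 := by nlinarith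
  -- the hull
  have hhull : ∀ (x : Fin n → Bool) (b : Fin 1 → ℝ), b ∈ convexHull ℝ
      ((fun F : Dnf s w n => aff (co e x) (vec e F.1)) ''
        {F | (lp s e).CorrectAt (Wrong Dnf.eval) F}) → 0 ≤ b 0 ∧ b 0 ≤ s := by
    intro x b hb
    have h4 : convexHull ℝ ((fun F : Dnf s w n => aff (co e x) (vec e F.1)) ''
        {F | (lp s e).CorrectAt (Wrong Dnf.eval) F}) ⊆
        {z : Fin 1 → ℝ | 0 ≤ z 0 ∧ z 0 ≤ s} := by
      apply convexHull_min
      · rintro _ ⟨F, -, rfl⟩
        show 0 ≤ aff (co e x) (vec e F.1) 0 ∧ aff (co e x) (vec e F.1) 0 ≤ s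
        rw [aff_apply]
        exact val_bd e F x
      · intro p hp q hq α β hα hβ hαβ
        simp only [Set.mem_ofPred_eq, Pi.add_apply, Pi.smul_apply, smul_eq_mul] at hp hq ⊢
        refine ⟨by nlinarith [mul_nonneg hα hp.1, mul_nonneg hβ hq.1], ?_⟩
        have h1 := mul_le_mul_of_nonneg_left hp.2 hα
        have h2 := mul_le_mul_of_nonneg_left hq.2 hβ
        have h3 : α * (s : ℝ) + β * s = s := by rw [← add_mul, hαβ, one_mul]
        linarith
    exact h4 hb
  have hneg : ∀ t, (y t).2 = false → ∑ j, co e (y t).1 j * u j ≤ s * δ := by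
    intro t ht
    obtain ⟨θ, hθ0, hθδ, p, hp, b, hb, hpb⟩ := hcl t 0
    have h1 : aff (co e (y t).1) u = (1 - θ) • p + θ • b := hpb
    have h2 := congrFun h1 0
    rw [aff_apply] at h2
    simp only [Pi.add_apply, Pi.smul_apply, smul_eq_mul] at h2
    have hp0 : p 0 ≤ 0 := by
      have h3 : p ∈ cset (y t).2 := hp
      rw [ht] at h3
      exact h3
    have hb0 := (hhull _ b hb)
    rw [h2]
    have h3 : (1 - θ) * p 0 ≤ 0 := mul_nonpos_of_nonneg_of_nonpos (by linarith) hp0
    have h4 : θ * b 0 ≤ δ * s := mul_le_mul hθδ hb0.2 hb0.1 hδ0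
    linarith
  have hpos : ∀ t, (y t).2 = true → 1 - δ ≤ ∑ j, co e (y t).1 j * u j := by
    intro t ht
    obtain ⟨θ, hθ0, hθδ, p, hp, b, hb, hpb⟩ := hcl t 0
    have h1 : aff (co e (y t).1) u = (1 - θ) • p + θ • b := hpb
    have h2 := congrFun h1 0
    rw [aff_apply] at h2
    simp only [Pi.add_apply, Pi.smul_apply, smul_eq_mul] at h2
    have hp0 : 1 ≤ p 0 := by
      have h3 : p ∈ cset (y t).2 := hp
      rw [ht] at h3
      exact h3
    have hb0 := (hhull _ b hb)
    rw [h2]
    have h3 : (1 - θ) * 1 ≤ (1 - θ) * p 0 := mul_le_mul_of_nonneg_left hp0 (by linarith)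
    have h4 : 0 ≤ θ * b 0 := mul_nonneg hθ0 hb0.1
    linarith
  -- the formula of all terms which are false at the negative examples
  obtain ⟨G, hG⟩ : ∃ G : Finset (Tm w n), G = univ.filter fun r : Tm w n =>
      ∀ t, (y t).2 = false → ¬ hold r.1 (y t).1 := ⟨_, rfl⟩
  obtain ⟨t₀, ht₀⟩ := hy G
  have hb : (y t₀).2 = true := by
    by_contra hcon
    have hf : (y t₀).2 = false := by
      cases h : (y t₀).2
      · rfl
      · exact absurd h hcon
    apply ht₀
    rw [hf]
    unfold val
    apply decide_eq_false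
    rintro ⟨t, ht, hx⟩
    obtain ⟨r, hr, rfl⟩ := mem_image.1 ht
    rw [hG, mem_filter] at hr
    exact hr.2 t₀ hf hx
  have hv : val (G.image fun r => r.1) (y t₀).1 = false := by
    cases h : val (G.image fun r => r.1) (y t₀).1
    · rfl
    · exact absurd (h.trans hb.symm) ht₀
  have hcover : ∀ j, co e (y t₀).1 j * u j ≤ ∑ t, (if (y t).2 = false then
      co e (y t).1 j * u j else 0) := by
    intro j
    have hterm : ∀ t, 0 ≤ (if (y t).2 = false then co e (y t).1 j * u j else 0) := by
      intro t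
      split_ifs
      · exact mul_nonneg (co_nonneg e _ j) (hnn j)
      · exact le_rfl
    by_cases hh : hold (e j).1 (y t₀).1
    · have h1 : (e j) ∉ G := by
        intro hj
        have h2 : val (G.image fun r => r.1) (y t₀).1 = true :=
          decide_eq_true ⟨(e j).1, mem_image_of_mem _ hj, hh⟩
        rw [hv] at h2
        exact absurd h2 (by decide)
      rw [hG, mem_filter] at h1
      push Not at h1
      obtain ⟨t, ht, hht⟩ := h1 (mem_univ _)
      have h3 := single_le_sum (f := fun t => (if (y t).2 = false then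
        co e (y t).1 j * u j else 0)) (s := univ) (fun t _ => hterm t) (mem_univ t)
      refine le_trans (le_of_eq ?_) h3
      show co e (y t₀).1 j * u j = (if (y t).2 = false then co e (y t).1 j * u j else 0)
      rw [if_pos ht]
      unfold co
      rw [if_pos hh, if_pos hht]
    · have h1 : co e (y t₀).1 j = 0 := if_neg hh
      rw [h1, zero_mul]
      exact sum_nonneg fun t _ => hterm t
  have h1 := (hpos t₀ hb).trans (sum_le_sum fun j _ => hcover j)
  rw [sum_comm] at h1
  have h2 : ∑ t : Fin T, ∑ j, (if (y t).2 = false then co e (y t).1 j * u j else 0) ≤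
      ∑ _t : Fin T, (s : ℝ) * δ := by
    refine sum_le_sum fun t _ => ?_
    by_cases ht : (y t).2 = false
    · simp only [ht, if_true]
      exact hneg t ht
    · rw [sum_eq_zero fun j _ => if_neg ht]
      positivity
  rw [sum_const, card_univ, Fintype.card_fin, nsmul_eq_mul] at h2
  nlinarith

/-- most samples are inconsistent with every hypothesis of a class -/
theorem rate_ge {X X' 𝒞 : Type} {T : ℕ} [Fintype X'] [Fintype 𝒞] [Nonempty 𝒞]
    (Viol : 𝒞 → X → Prop) (Viol' : 𝒞 → X' → Prop) {a s r D : ℕ}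
    (P : Scheme X 𝒞 a s r D) {δ ρ : ℝ}
    (hP : ∀ y : Fin T → 𝒞, (∀ x, ∃ t, Viol' (y t) x) → Rejects P Viol y δ)
    (hρ : ∀ x, ((Finset.univ.filter fun c => ¬ Viol' c x).card : ℝ) ≤ ρ * Fintype.card 𝒞) :
    1 - Fintype.card X' * ρ ^ T ≤ rejectRate P Viol T δ := by
  have hC : (0 : ℝ) < Fintype.card 𝒞 := by exact_mod_cast Fintype.card_pos
  let R : Finset (Fin T → 𝒞) := Finset.univ.filter fun y => Rejects P Viol y δ
  let B : X' → Finset (Fin T → 𝒞) := fun x =>
    Fintype.piFinset fun _ => Finset.univ.filter fun c => ¬ Viol' c x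
  have hrr : rejectRate P Viol T δ = (R.card : ℝ) / Fintype.card (Fin T → 𝒞) := by
    unfold rejectRate
    rw [Nat.card_eq_fintype_card, Set.ncard_eq_toFinset_card']
    congr 3
    ext y
    simp [R]
  have h1 : (Finset.univ : Finset (Fin T → 𝒞)) ⊆ R ∪ Finset.univ.biUnion B := by
    intro y _
    rw [Finset.mem_union]
    by_cases hy : ∀ x, ∃ t, Viol' (y t) x
    · exact Or.inl (Finset.mem_filter.2 ⟨Finset.mem_univ _, hP y hy⟩)
    · push Not at hy
      obtain ⟨x, hx⟩ := hy
      right
      rw [Finset.mem_biUnion]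
      refine ⟨x, Finset.mem_univ _, ?_⟩
      simp only [B, Fintype.mem_piFinset]
      intro t
      exact Finset.mem_filter.2 ⟨Finset.mem_univ _, hx t⟩
  have h2 : (Fintype.card (Fin T → 𝒞) : ℝ) ≤ R.card + ∑ x, ((B x).card : ℝ) := by
    have h3 := (Finset.card_le_card h1).trans (Finset.card_union_le _ _)
    have h4 := h3.trans (Nat.add_le_add_left Finset.card_biUnion_le _)
    rw [Finset.card_univ] at h4
    exact_mod_cast h4
  have h3 : ∀ x, ((B x).card : ℝ) ≤ ρ ^ T * Fintype.card (Fin T → 𝒞) := by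
    intro x
    have h4 : ((B x).card : ℝ)
        = ((Finset.univ.filter fun c => ¬ Viol' c x).card : ℝ) ^ T := by
      simp only [B]
      rw [Fintype.card_piFinset_const]
      push_cast
      rfl
    rw [h4, Fintype.card_fun, Fintype.card_fin]
    push_cast
    rw [← mul_pow]
    exact pow_le_pow_left₀ (by positivity) (hρ x) T
  have h4 : ∑ x, ((B x).card : ℝ)
      ≤ Fintype.card X' * ρ ^ T * Fintype.card (Fin T → 𝒞) := by
    calc ∑ x, ((B x).card : ℝ) ≤ ∑ _x : X', ρ ^ T * Fintype.card (Fin T → 𝒞) :=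
          Finset.sum_le_sum (fun x _ => h3 x)
      _ = _ := by rw [Finset.sum_const, Finset.card_univ, nsmul_eq_mul]; ring
  have hY : (0 : ℝ) < Fintype.card (Fin T → 𝒞) := by exact_mod_cast Fintype.card_pos
  rw [hrr, le_div_iff₀ hY]
  nlinarith

end lp

/-- The upper bound. -/
theorem dnf_upper (s w n : ℕ) : ∃ S : ℕ, S ≤ (2 * n + 1) ^ w ∧
    ∃ P : Scheme (Dnf s w n) ((Fin n → Bool) × Bool) 0 S 1 1,
      (∀ F, P.CorrectAt (Wrong Dnf.eval) F) ∧
      ∀ (T : ℕ) (δ : ℝ), 0 ≤ δ → (1 + s * T) * δ < 1 →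
        1 - 2 ^ S / 2 ^ T ≤ rejectRate P (Wrong Dnf.eval) T δ := by
  obtain ⟨S, hS⟩ : ∃ S, S = Fintype.card (Tm w n) := ⟨_, rfl⟩
  have e : Fin S ≃ Tm w n := by
    rw [hS]
    exact (Fintype.equivFin (Tm w n)).symm
  refine ⟨S, by rw [hS]; exact card_tm w n, lp s e, lp_correct e, fun T δ hδ0 hδ => ?_⟩
  have h1 := rate_ge (X' := Finset (Tm w n)) (T := T) (δ := δ) (ρ := 1 / 2)
    (Wrong (Dnf.eval (s := s) (w := w) (n := n)))
    (Wrong fun (G : Finset (Tm w n)) => val (G.image fun r => r.1)) (lp s e)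
    (fun y hy => lp_rejects e y hδ0 hδ hy) (fun G => by
      have h2 := wrong_half (fun (G : Finset (Tm w n)) => val (G.image fun r => r.1)) G
      rw [Set.ncard_eq_toFinset_card'] at h2
      refine le_trans (le_of_eq ?_) h2
      congr 2
      ext c
      simp)
  refine le_trans (le_of_eq ?_) h1
  rw [Fintype.card_finset, ← hS]
  push_cast
  rw [one_div, inv_pow, div_eq_mul_inv]

end Pool.Agent.X246.DCP
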