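import Pool.Agent.X246.DCP.Par

set_option autoImplicit false

/-!
# Convex programming relaxations of the consistency problem of DNF formulas: asymptotic form
-/

namespace Pool.Agent.X246.DCP

open Finset Pool.Agent.TH689.GX Pool.Agent.TH689.QX

open scoped Classical

theorem num_bound (ε C : ℝ) (hε : 0 < ε) (hC : 0 < C) : ∃ n₀ : ℕ, ∀ n : ℕ, n₀ ≤ n →
    ∀ (T δ M : ℝ), 0 ≤ T → T ≤ (n : ℝ) ^ C → (n : ℝ) ^ (-C) ≤ δ →
      M ≤ (n : ℝ) ^ ((1 - ε) * Real.logb 2 n) →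
      1 ≤ Nat.log 2 n + 1 ∧ 2 ^ (Nat.log 2 n + 1 - 1) ≤ n ∧ Nat.log 2 n + 1 ≤ n ∧
      2 * T ^ 3 * M / (((n / (Nat.log 2 n + 1) : ℕ) : ℝ) ^ (Nat.log 2 n + 1) * δ ^ 2) ≤
        (n : ℝ) ^ (-C) := by
  have h2 : (0 : ℝ) < Real.log 2 := Real.log_pos (by norm_num)
  have h21 : Real.log 2 ≤ 1 := by
    have := Real.log_two_lt_d9
    linarith
  obtain ⟨η, hη⟩ : ∃ η, η = ε * Real.log 2 / 8 := ⟨_, rfl⟩
  have hη0 : 0 < η := by rw [hη]; positivity
  obtain ⟨K, hK⟩ : ∃ K, K = |ε * Real.log 2 / 4 - 1 - Real.log η| := ⟨_, rfl⟩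
  have hK0 : 0 ≤ K := by rw [hK]; exact abs_nonneg _
  obtain ⟨L₀, hL₀⟩ : ∃ L₀, L₀ = 1 + (1 + 6 * C + K / Real.log 2) * Real.log 2 / (3 * ε / 4) :=
    ⟨_, rfl⟩
  have hL₀1 : 1 ≤ L₀ := by
    rw [hL₀]
    have : 0 ≤ (1 + 6 * C + K / Real.log 2) * Real.log 2 / (3 * ε / 4) := by positivity
    linarith
  refine ⟨⌈Real.exp L₀⌉₊ + 2, fun n hn T δ M hT0 hT hδ hM => ?_⟩
  have hnR : Real.exp L₀ ≤ n := (Nat.le_ceil _).trans (by exact_mod_cast (by omega))
  have hn2 : 2 ≤ n := by omega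
  have hn0 : (0 : ℝ) < n := by exact_mod_cast (by omega : 0 < n)
  obtain ⟨L, hL⟩ : ∃ L, L = Real.log n := ⟨_, rfl⟩
  have hLL : L₀ ≤ L := by
    rw [hL]
    exact (Real.le_log_iff_exp_le hn0).2 hnR
  have hL1 : 1 ≤ L := hL₀1.trans hLL
  obtain ⟨l, hl⟩ : ∃ l, l = Nat.log 2 n + 1 := ⟨_, rfl⟩
  rw [← hl]
  have hl1 : 1 ≤ l := by omega
  have hpow : 2 ^ (l - 1) ≤ n := by
    rw [hl, Nat.add_sub_cancel]
    exact Nat.pow_log_le_self 2 (by omega)
  have hln : l ≤ n := by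
    have h3 : l - 1 < 2 ^ (l - 1) := Nat.lt_two_pow_self
    omega
  refine ⟨hl1, hpow, hln, ?_⟩
  have hlR : L ≤ l * Real.log 2 := by
    have h3 : n < 2 ^ l := by
      rw [hl]
      exact Nat.lt_pow_succ_log_self (by norm_num) n
    have h4 : (n : ℝ) ≤ 2 ^ l := by exact_mod_cast h3.le
    rw [hL]
    calc Real.log n ≤ Real.log (2 ^ l) := Real.log_le_log hn0 h4
      _ = l * Real.log 2 := Real.log_pow _ _
  have hlR2 : ((l : ℝ) - 1) * Real.log 2 ≤ L := by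
    have h4 : (2 : ℝ) ^ (l - 1) ≤ n := by exact_mod_cast hpow
    rw [hL]
    calc ((l : ℝ) - 1) * Real.log 2 = ((l - 1 : ℕ) : ℝ) * Real.log 2 := by
          rw [Nat.cast_sub hl1, Nat.cast_one]
      _ = Real.log (2 ^ (l - 1)) := (Real.log_pow _ _).symm
      _ ≤ Real.log n := Real.log_le_log (by positivity) h4
  have hl0 : (0 : ℝ) < l := by exact_mod_cast hl1
  -- the quotient
  have hq1 : 1 ≤ n / l := (Nat.le_div_iff_mul_le hl1).2 (by omega)
  have hq0 : (0 : ℝ) < ((n / l : ℕ) : ℝ) := by exact_mod_cast hq1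
  have hq : (n : ℝ) ≤ 2 * l * ((n / l : ℕ) : ℝ) := by
    have h3 : n < l * (n / l + 1) := Nat.lt_mul_div_succ n hl1
    have h4 : l * (n / l + 1) ≤ 2 * l * (n / l) := by nlinarith
    exact_mod_cast (h3.le.trans h4)
  have hlogq : L - Real.log (2 * l) ≤ Real.log ((n / l : ℕ) : ℝ) := by
    have h3 := Real.log_le_log hn0 hq
    rw [Real.log_mul (by positivity) hq0.ne', ← hL] at h3
    linarith
  have hlog2l : Real.log (2 * l) ≤ ε / 4 * L + K := by
    have h3 : Real.log (η * (2 * l)) ≤ η * (2 * l) - 1 :=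
      Real.log_le_sub_one_of_pos (by positivity)
    rw [Real.log_mul hη0.ne' (by positivity)] at h3
    have h4 : ε * Real.log 2 / 4 - 1 - Real.log η ≤ K := by rw [hK]; exact le_abs_self _
    have h5 : η * (2 * l) ≤ ε / 4 * L + ε * Real.log 2 / 4 := by
      have h6 : (l : ℝ) * Real.log 2 ≤ L + Real.log 2 := by linarith
      have h7 : η * (2 * l) = ε / 4 * (l * Real.log 2) := by rw [hη]; ring
      rw [h7]
      nlinarith
    linarith
  have hmain : Real.log 2 + 6 * C * L + (1 - ε) * (L / Real.log 2) * L ≤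
      l * Real.log ((n / l : ℕ) : ℝ) := by
    have h3 : (1 + 6 * C + K / Real.log 2) * Real.log 2 ≤ 3 * ε / 4 * (L - 1) := by
      have h4 : (1 + 6 * C + K / Real.log 2) * Real.log 2 / (3 * ε / 4) ≤ L - 1 := by linarith
      rw [div_le_iff₀ (by positivity)] at h4
      linarith
    have h5 : L / Real.log 2 ≤ l := by
      rw [div_le_iff₀ h2]
      exact hlR
    have h6 : 0 ≤ Real.log ((n / l : ℕ) : ℝ) := Real.log_nonneg (by exact_mod_cast hq1)
    have h7 : L / Real.log 2 * Real.log ((n / l : ℕ) : ℝ) ≤ l * Real.log ((n / l : ℕ) : ℝ) :=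
      mul_le_mul_of_nonneg_right h5 h6
    refine le_trans ?_ h7
    have h8 : L / Real.log 2 * ((1 - ε / 4) * L - K) ≤
        L / Real.log 2 * Real.log ((n / l : ℕ) : ℝ) :=
      mul_le_mul_of_nonneg_left (by linarith) (by positivity)
    refine le_trans ?_ h8
    have h9 : Real.log 2 + 6 * C * L + (1 - ε) * (L / Real.log 2) * L -
        L / Real.log 2 * ((1 - ε / 4) * L - K) =
        (Real.log 2 * Real.log 2 + 6 * C * Real.log 2 * L + K * L - 3 * ε / 4 * L * L) /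
          Real.log 2 := by
      field_simp
      ring
    have h10 : Real.log 2 * Real.log 2 + 6 * C * Real.log 2 * L + K * L - 3 * ε / 4 * L * L ≤ 0 := by
      have h11 : (1 + 6 * C + K / Real.log 2) * Real.log 2 =
          Real.log 2 + 6 * C * Real.log 2 + K := by field_simp
      rw [h11] at h3
      have h12 := mul_le_mul_of_nonneg_right h3 (by linarith : 0 ≤ L)
      have h13 : Real.log 2 * Real.log 2 ≤ Real.log 2 * L :=
        mul_le_mul_of_nonneg_left (by linarith) h2.le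
      have h14 : 0 ≤ 3 * ε / 4 * L := by positivity
      nlinarith
    have h15 := div_nonpos_of_nonpos_of_nonneg h10 h2.le
    linarith
  -- conclusion
  have hδ0 : 0 < δ := lt_of_lt_of_le (by positivity) hδ
  rw [div_le_iff₀ (by positivity)]
  have e1 : (n : ℝ) ^ (-C) = Real.exp (-(C * L)) := by
    rw [Real.rpow_def_of_pos hn0, ← hL]
    congr 1
    ring
  have e2 : (n : ℝ) ^ C = Real.exp (C * L) := by
    rw [Real.rpow_def_of_pos hn0, ← hL]
    congr 1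
    ring
  have e3 : (n : ℝ) ^ ((1 - ε) * Real.logb 2 n) = Real.exp ((1 - ε) * (L / Real.log 2) * L) := by
    rw [Real.rpow_def_of_pos hn0, ← hL]
    congr 1
    unfold Real.logb
    rw [← hL]
    ring
  have e4 : ((n / l : ℕ) : ℝ) ^ l = Real.exp (l * Real.log ((n / l : ℕ) : ℝ)) := by
    rw [Real.exp_nat_mul, Real.exp_log hq0]
  rw [e1] at hδ ⊢
  rw [e2] at hT
  rw [e3] at hM
  rw [e4]
  have h3 : T ^ 3 ≤ Real.exp (3 * (C * L)) := by
    have h4 : Real.exp (3 * (C * L)) = Real.exp (C * L) ^ 3 := by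
      rw [← Real.exp_nat_mul]
      norm_num
    rw [h4]
    exact pow_le_pow_left₀ hT0 hT 3
  have h4 : Real.exp (-(2 * (C * L))) ≤ δ ^ 2 := by
    have h5 : Real.exp (-(2 * (C * L))) = Real.exp (-(C * L)) ^ 2 := by
      rw [← Real.exp_nat_mul]
      congr 1
      push_cast
      ring
    rw [h5]
    exact pow_le_pow_left₀ (Real.exp_pos _).le hδ 2
  have h5 : 2 * T ^ 3 * M ≤ 2 * T ^ 3 * Real.exp ((1 - ε) * (L / Real.log 2) * L) :=
    mul_le_mul_of_nonneg_left hM (by positivity)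
  have h6 : 2 * T ^ 3 * Real.exp ((1 - ε) * (L / Real.log 2) * L) ≤
      Real.exp (Real.log 2) * Real.exp (3 * (C * L)) *
        Real.exp ((1 - ε) * (L / Real.log 2) * L) := by
    rw [Real.exp_log (by norm_num)]
    refine mul_le_mul_of_nonneg_right ?_ (Real.exp_pos _).le
    linarith
  have h7 : Real.exp (-(C * L)) * (Real.exp (l * Real.log ((n / l : ℕ) : ℝ)) *
      Real.exp (-(2 * (C * L)))) ≤
      Real.exp (-(C * L)) * (Real.exp (l * Real.log ((n / l : ℕ) : ℝ)) * δ ^ 2) :=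
    mul_le_mul_of_nonneg_left (mul_le_mul_of_nonneg_left h4 (Real.exp_pos _).le)
      (Real.exp_pos _).le
  refine (h5.trans h6).trans (le_trans ?_ h7)
  rw [← Real.exp_add, ← Real.exp_add, ← Real.exp_add, ← Real.exp_add]
  apply Real.exp_le_exp.2
  linarith

/-- The asymptotic form. -/
theorem dnf_asym (ε C : ℝ) (hε : 0 < ε) (hC : 0 < C) : ∃ n₀ : ℕ, ∀ n : ℕ, n₀ ≤ n →
    ∀ (w T : ℕ), Nat.log 2 n + 1 ≤ w → 1 ≤ T → (T : ℝ) ≤ (n : ℝ) ^ C →
    ∀ δ : ℝ, (n : ℝ) ^ (-C) ≤ δ → δ < 1 →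
    ∀ (Ω : Type) [Fintype Ω] (p : Ω → ℝ), (∀ ω, 0 ≤ p ω) → ∑ ω, p ω = 1 →
    ∀ (a c r D : Ω → ℕ),
      (∀ ω, (2 : ℝ) ^ a ω * (c ω + (r ω + 1) * T + 1) * (D ω + 2) ≤
        (n : ℝ) ^ ((1 - ε) * Real.logb 2 n)) →
    ∀ P : ∀ ω, Scheme (Dnf n w n) ((Fin n → Bool) × Bool) (a ω) (c ω) (r ω) (D ω),
    ∃ F : Dnf n w n, ∑ ω, p ω * (if (P ω).CorrectAt (Wrong Dnf.eval) F then
      rejectRate (P ω) (Wrong Dnf.eval) T δ else 0) ≤ (n : ℝ) ^ (-C) := by
  obtain ⟨n₀, h⟩ := num_bound ε C hε hC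
  refine ⟨max n₀ 1, fun n hn w T hw hT hTn δ hδ hδ1 Ω _ p hp hp1 a c r D hM P => ?_⟩
  obtain ⟨h1, h2, h3, h4⟩ := h n ((le_max_left _ _).trans hn) T δ
    ((n : ℝ) ^ ((1 - ε) * Real.logb 2 n)) (Nat.cast_nonneg _) hTn hδ le_rfl
  have hn0 : (0 : ℝ) < n := by
    have : 1 ≤ n := (le_max_right _ _).trans hn
    exact_mod_cast this
  obtain ⟨F, -, -, hF⟩ := dnf_main (s := n) (w := w) h1 h2 hw h3 hT
    (lt_of_lt_of_le (by positivity) hδ) hδ1 Ω p hp hp1 a c r D _ hM P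
  exact ⟨F, hF.trans h4⟩

end Pool.Agent.X246.DCP
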