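import Mathlib
import Pool.Agent.TH689.QXJunta
import Pool.Agent.TH689.QXUpper

set_option autoImplicit false

/-!
# Convex programming relaxations of the consistency problem of DNF formulas: the lower bound
-/

namespace Pool.Agent.X246.DCP

open Finset Pool.Agent.TH689.GX Pool.Agent.TH689.QX

open scoped Classical

/-- DNF formulas in `n` variables with at most `s` terms of at most `w` literals; the literal
`(i, b)` is true at `x` if `x i = b`. -/
def Dnf (s w n : ℕ) : Type :=
  {F : Finset (Finset (Fin n × Bool)) // F.card ≤ s ∧ ∀ t ∈ F, t.card ≤ w}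

/-- The value of a set of terms. -/
noncomputable def val {n : ℕ} (F : Finset (Finset (Fin n × Bool))) (x : Fin n → Bool) : Bool :=
  decide (∃ t ∈ F, ∀ l ∈ t, x l.1 = l.2)

/-- The value of a DNF formula. -/
noncomputable def Dnf.eval {s w n : ℕ} (F : Dnf s w n) (x : Fin n → Bool) : Bool := val F.1 x

/-! ### Parities as DNF formulas -/

/-- the vectors of `k` bits with an odd number of ones -/
noncomputable def odds (k : ℕ) : Finset (Fin k → Bool) :=
  univ.filter fun v => Odd (univ.filter fun j : Fin k => v j = true).card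

theorem card_succ {m : ℕ} (v : Fin (m + 1) → Bool) :
    (univ.filter fun j : Fin (m + 1) => v j = true).card =
      (if v 0 = true then 1 else 0) +
        (univ.filter fun j : Fin m => v j.succ = true).card := by
  rw [card_filter, card_filter, Fin.sum_univ_succ]

theorem card_odds (m : ℕ) : (odds (m + 1)).card ≤ 2 ^ m := by
  have h : Set.InjOn (fun v : Fin (m + 1) → Bool => fun j : Fin m => v j.succ)
      (odds (m + 1) : Set (Fin (m + 1) → Bool)) := by
    intro v hv v' hv' h
    have h' : ∀ j : Fin m, v j.succ = v' j.succ := fun j => congrFun h j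
    have hv2 := (mem_filter.1 (mem_coe.1 hv)).2
    have hv2' := (mem_filter.1 (mem_coe.1 hv')).2
    rw [card_succ] at hv2 hv2'
    simp only [h'] at hv2
    funext j
    refine Fin.cases ?_ h' j
    show v 0 = v' 0
    cases h0 : v 0 <;> cases h1 : v' 0 <;> simp_all [Nat.odd_add, Nat.odd_iff] <;> omega
  have h2 := card_le_card_of_injOn (s := odds (m + 1)) (t := (univ : Finset (Fin m → Bool)))
    (fun v : Fin (m + 1) → Bool => fun j : Fin m => v j.succ) (fun _ _ => mem_coe.2 (mem_univ _)) h
  simpa using h2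

variable {n k N : ℕ}

/-- the terms of the parity of the attributes chosen by `z` -/
noncomputable def parF (ι : Fin k × Fin N → Fin n) (z : Fin k → Fin N) :
    Finset (Finset (Fin n × Bool)) :=
  (odds k).image fun v => univ.image fun j : Fin k => (ι (j, z j), v j)

theorem parF_card (ι : Fin k × Fin N → Fin n) (z : Fin k → Fin N) (hk : 1 ≤ k) :
    (parF ι z).card ≤ 2 ^ (k - 1) := by
  obtain ⟨m, rfl⟩ := Nat.exists_eq_add_of_le' hk
  exact card_image_le.trans (card_odds m)

theorem parF_width (ι : Fin k × Fin N → Fin n) (z : Fin k → Fin N) :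
    ∀ t ∈ parF ι z, t.card ≤ k := by
  intro t ht
  obtain ⟨v, -, rfl⟩ := mem_image.1 ht
  exact card_image_le.trans (by simp)

/-- the parity of the attributes chosen by `z` -/
noncomputable def par (ι : Fin k × Fin N → Fin n) (z : Fin k → Fin N) (x : Fin n → Bool) : Bool :=
  decide (Odd (univ.filter fun j : Fin k => x (ι (j, z j)) = true).card)

theorem val_parF (ι : Fin k × Fin N → Fin n) (z : Fin k → Fin N) (x : Fin n → Bool) :
    val (parF ι z) x = par ι z x := by
  unfold val par
  apply decide_eq_decide.2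
  constructor
  · rintro ⟨t, ht, hx⟩
    obtain ⟨v, hv, rfl⟩ := mem_image.1 ht
    have h : ∀ j : Fin k, x (ι (j, z j)) = v j := fun j =>
      hx (ι (j, z j), v j) (mem_image_of_mem _ (mem_univ j))
    have h2 := (mem_filter.1 hv).2
    simp only [h]
    exact h2
  · intro h
    refine ⟨_, mem_image_of_mem _ (mem_filter.2 ⟨mem_univ (fun j => x (ι (j, z j))), h⟩), ?_⟩
    intro l hl
    obtain ⟨j, -, rfl⟩ := mem_image.1 hl
    rfl

/-- two different parities are orthogonal -/
theorem par_orth {ι : Fin k × Fin N → Fin n} (hι : Function.Injective ι) {z z' : Fin k → Fin N}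
    (hz : z ≠ z') : ∑ x : Fin n → Bool, sg (par ι z x) * sg (par ι z' x) = 0 := by
  obtain ⟨j₀, hj₀⟩ := Function.ne_iff.1 hz
  obtain ⟨i₀, hi₀⟩ : ∃ i₀, i₀ = ι (j₀, z j₀) := ⟨_, rfl⟩
  obtain ⟨f, hf⟩ : ∃ f : (Fin n → Bool) → (Fin n → Bool),
      f = fun x => Function.update x i₀ (!x i₀) := ⟨_, rfl⟩
  have hinv : Function.Involutive f := by
    intro x
    rw [hf]
    simp only [Function.update_self, Bool.not_not, Function.update_idem,
      Function.update_eq_self]
  have h1 : ∀ x, par ι z' (f x) = par ι z' x := by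
    intro x
    unfold par
    congr 3
    ext j
    simp only [mem_filter, mem_univ, true_and]
    have h2 : ι (j, z' j) ≠ i₀ := by
      rw [hi₀]
      intro h
      have h3 := hι h
      rw [Prod.mk.injEq] at h3
      obtain ⟨h4, h5⟩ := h3
      subst h4
      exact hj₀ h5.symm
    rw [hf]
    show Function.update x i₀ (!x i₀) (ι (j, z' j)) = true ↔ _
    rw [Function.update_of_ne h2]
  have h2 : ∀ x, sg (par ι z (f x)) = - sg (par ι z x) := by
    intro x
    have h3 : par ι z (f x) = !par ι z x := by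
      unfold par
      have h4 : ∀ y : Fin n → Bool, (univ.filter fun j : Fin k => y (ι (j, z j)) = true).card =
          (if y (ι (j₀, z j₀)) = true then 1 else 0) +
            ((univ.erase j₀).filter fun j : Fin k => y (ι (j, z j)) = true).card := by
        intro y
        rw [card_filter, ← Finset.add_sum_erase _ _ (mem_univ j₀), card_filter]
      rw [h4, h4]
      have h5 : ((univ.erase j₀).filter fun j : Fin k => f x (ι (j, z j)) = true) =
          ((univ.erase j₀).filter fun j : Fin k => x (ι (j, z j)) = true) := by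
        apply filter_congr
        intro j hj
        have h6 : ι (j, z j) ≠ i₀ := by
          rw [hi₀]
          intro h
          have h7 := hι h
          rw [Prod.mk.injEq] at h7
          exact (ne_of_mem_erase hj) h7.1
        rw [hf]
        show Function.update x i₀ (!x i₀) (ι (j, z j)) = true ↔ _
        rw [Function.update_of_ne h6]
      rw [h5]
      have h6 : f x (ι (j₀, z j₀)) = !x (ι (j₀, z j₀)) := by
        rw [hf]
        show Function.update x i₀ (!x i₀) (ι (j₀, z j₀)) = _
        rw [← hi₀, Function.update_self]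
      rw [h6]
      generalize ((univ.erase j₀).filter fun j : Fin k => x (ι (j, z j)) = true).card = c
      cases hx : x (ι (j₀, z j₀))
      · simp only [Bool.not_false, if_true, Bool.false_eq_true, if_false, zero_add]
        rw [add_comm]
        have h7 := Nat.odd_add_one (n := c)
        by_cases hc : Odd c <;> simp [hc, h7]
      · simp only [Bool.not_true, if_true, Bool.false_eq_true, if_false, zero_add]
        rw [add_comm]
        have h7 := Nat.odd_add_one (n := c)
        by_cases hc : Odd c <;> simp [hc, h7]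
    rw [h3]
    cases par ι z x <;> norm_num [sg]
  have h3 := Equiv.sum_comp (hinv.toPerm) (fun x => sg (par ι z x) * sg (par ι z' x))
  have h4 : ∑ x, sg (par ι z (f x)) * sg (par ι z' (f x)) =
      ∑ x : Fin n → Bool, sg (par ι z x) * sg (par ι z' x) := h3
  have h5 : ∑ x, sg (par ι z (f x)) * sg (par ι z' (f x)) =
      - ∑ x : Fin n → Bool, sg (par ι z x) * sg (par ι z' x) := by
    rw [← sum_neg_distrib]
    refine sum_congr rfl fun x _ => ?_
    rw [h1, h2]
    ring
  linarith

/-- The average correlation of the parities. -/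
theorem twist_par {ι : Fin k × Fin N → Fin n} (hι : Function.Injective ι) (hN : 0 < N) :
    Twist (Wrong (par ι)) (sgn (Wrong (par ι))) (1 / (N : ℝ) ^ k) := by
  have hNr : (0 : ℝ) < N := by exact_mod_cast hN
  apply twist_learn _ (by positivity)
  intro z
  rw [sum_eq_single z]
  · have h1 : ∑ x : Fin n → Bool, sg (par ι z x) * sg (par ι z x) =
        (Fintype.card (Fin n → Bool) : ℝ) := by
      rw [sum_congr rfl fun x _ => sg_mul_self _, sum_const, card_univ, nsmul_eq_mul, mul_one]
    rw [h1, abs_of_nonneg (Nat.cast_nonneg _)]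
    have h4 : (Fintype.card (Fin k → Fin N) : ℝ) = (N : ℝ) ^ k := by
      rw [Fintype.card_fun, Fintype.card_fin, Fintype.card_fin]
      push_cast
      rfl
    rw [h4]
    have h5 : (1 / (N : ℝ) ^ k) * (Fintype.card (Fin n → Bool) : ℝ) * (N : ℝ) ^ k =
        (Fintype.card (Fin n → Bool) : ℝ) := by
      field_simp
    rw [h5]
  · intro z' _ hz'
    rw [par_orth hι hz'.symm, abs_zero]
  · intro h
    exact absurd (mem_univ _) h

/-! ### Restricting a relaxation to a subclass -/

section restrict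

variable {X X' 𝒞 : Type} {a s r D T : ℕ}

/-- the scheme for the subclass -/
def rst (P : Scheme X 𝒞 a s r D) (F : X' → X) : Scheme X' 𝒞 a s r D where
  d := P.d
  space := P.space
  bin := P.bin
  map := P.map
  set := P.set
  set_convex := P.set_convex
  locMap := P.locMap
  locSet := P.locSet
  locSet_convex := P.locSet_convex
  point := fun x => P.point (F x)

theorem rst_correct (P : Scheme X 𝒞 a s r D) (F : X' → X) (Viol : 𝒞 → X → Prop) (x : X') :
    (rst P F).CorrectAt (fun c x => Viol c (F x)) x ↔ P.CorrectAt Viol (F x) := Iff.rfl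

theorem rst_fits (P : Scheme X 𝒞 a s r D) (F : X' → X) (Viol : 𝒞 → X → Prop) (y : Fin T → 𝒞)
    (δ : ℝ) (u : Fin P.d → ℝ) (h : Fits (rst P F) (fun c x => Viol c (F x)) y δ u) :
    Fits P Viol y δ u := by
  obtain ⟨h1, h2, h3, h4⟩ := h
  refine ⟨h1, h2, h3, fun t i => ?_⟩
  obtain ⟨θ, hθ0, hθδ, p, hp, b, hb, hpb⟩ := h4 t i
  refine ⟨θ, hθ0, hθδ, p, hp, b, ?_, hpb⟩
  refine convexHull_mono ?_ hb
  rintro _ ⟨x, hx, rfl⟩
  exact ⟨F x, hx, rfl⟩

theorem rst_rejects (P : Scheme X 𝒞 a s r D) (F : X' → X) (Viol : 𝒞 → X → Prop) (y : Fin T → 𝒞)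
    (δ : ℝ) (h : Rejects P Viol y δ) : Rejects (rst P F) (fun c x => Viol c (F x)) y δ := by
  rcases h with h | ⟨f, h1, h2⟩
  · left
    intro u hu
    exact h u (rst_fits P F Viol y δ u hu)
  · right
    refine ⟨f, fun x hx => ?_, fun u hu => h2 u (rst_fits P F Viol y δ u hu)⟩
    exact h1 (F x) hx

theorem rst_rate [Finite 𝒞] [Nonempty 𝒞] (P : Scheme X 𝒞 a s r D) (F : X' → X)
    (Viol : 𝒞 → X → Prop) (δ : ℝ) :
    rejectRate P Viol T δ ≤ rejectRate (rst P F) (fun c x => Viol c (F x)) T δ := by
  unfold rejectRate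
  apply div_le_div_of_nonneg_right _ (Nat.cast_nonneg _)
  exact_mod_cast Set.ncard_le_ncard (fun y hy => rst_rejects P F Viol y δ hy) (Set.toFinite _)

end restrict

/-- The lower bound for one family of parities. -/
theorem dnf_main {n s w l T : ℕ} (hl : 1 ≤ l) (hls : 2 ^ (l - 1) ≤ s) (hlw : l ≤ w) (hln : l ≤ n)
    (hT : 1 ≤ T) {δ : ℝ} (hδ0 : 0 < δ) (hδ1 : δ < 1) (Ω : Type) [Fintype Ω] (p : Ω → ℝ)
    (hp : ∀ ω, 0 ≤ p ω) (hp1 : ∑ ω, p ω = 1) (a c r D : Ω → ℕ) (M : ℝ)
    (hM : ∀ ω, (2 : ℝ) ^ a ω * (c ω + (r ω + 1) * T + 1) * (D ω + 2) ≤ M)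
    (P : ∀ ω, Scheme (Dnf s w n) ((Fin n → Bool) × Bool) (a ω) (c ω) (r ω) (D ω)) :
    ∃ F : Dnf s w n, F.1.card ≤ 2 ^ (l - 1) ∧ (∀ t ∈ F.1, t.card ≤ l) ∧
      ∑ ω, p ω * (if (P ω).CorrectAt (Wrong Dnf.eval) F then
        rejectRate (P ω) (Wrong Dnf.eval) T δ else 0) ≤
        2 * T ^ 3 * M / (((n / l : ℕ) : ℝ) ^ l * δ ^ 2) := by
  have hN : 0 < n / l := Nat.div_pos hln (by omega)
  have hemb : Nonempty (Fin l × Fin (n / l) ↪ Fin n) := by
    apply Function.Embedding.nonempty_of_card_le
    rw [Fintype.card_prod, Fintype.card_fin, Fintype.card_fin, Fintype.card_fin]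
    exact Nat.mul_div_le n l
  obtain ⟨ι⟩ := hemb
  obtain ⟨F, hF⟩ : ∃ F : (Fin l → Fin (n / l)) → Dnf s w n, F = fun z =>
      ⟨parF ι z, (parF_card ι z hl).trans hls, fun t ht => (parF_width ι z t ht).trans hlw⟩ :=
    ⟨_, rfl⟩
  have hFe : ∀ z, (F z).eval = par ι z := by
    intro z
    funext x
    rw [hF]
    exact val_parF ι z x
  have hW : (fun (c : (Fin n → Bool) × Bool) (z : Fin l → Fin (n / l)) =>
      Wrong (Dnf.eval (s := s) (w := w) (n := n)) c (F z)) = Wrong (par ι) := by
    funext c z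
    show (Dnf.eval (F z) c.1 ≠ c.2) = (par ι z c.1 ≠ c.2)
    rw [hFe]
  have hne : Nonempty (Fin l → Fin (n / l)) := ⟨fun _ => ⟨0, hN⟩⟩
  have h1 := learn_random (Wrong (par ι)) (twist_par ι.injective hN) hT hδ0 hδ1 Ω p hp hp1 a c r D
    M hM (fun ω => rst (P ω) F)
  have hcard : (Nat.card (Fin l → Fin (n / l)) : ℝ) = ((n / l : ℕ) : ℝ) ^ l := by
    rw [Nat.card_eq_fintype_card, Fintype.card_fun, Fintype.card_fin, Fintype.card_fin]
    push_cast
    rfl
  have hNl : (0 : ℝ) < ((n / l : ℕ) : ℝ) ^ l := by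
    have : (0 : ℝ) < ((n / l : ℕ) : ℝ) := by exact_mod_cast hN
    positivity
  have h2 : ∑ z : Fin l → Fin (n / l), ∑ ω, p ω * (if (P ω).CorrectAt (Wrong Dnf.eval) (F z) then
      rejectRate (P ω) (Wrong Dnf.eval) T δ else 0) ≤
      ∑ _z : Fin l → Fin (n / l), 2 * (T : ℝ) ^ 3 * M / (((n / l : ℕ) : ℝ) ^ l * δ ^ 2) := by
    rw [sum_comm, sum_const, card_univ, ← Nat.card_eq_fintype_card, nsmul_eq_mul, hcard]
    have h3 : ∀ ω, ∑ z : Fin l → Fin (n / l), p ω *
        (if (P ω).CorrectAt (Wrong Dnf.eval) (F z) then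
          rejectRate (P ω) (Wrong Dnf.eval) T δ else 0) ≤
        ((n / l : ℕ) : ℝ) ^ l * (p ω * ((rst (P ω) F).correctRate (Wrong (par ι)) *
          rejectRate (rst (P ω) F) (Wrong (par ι)) T δ)) := by
      intro ω
      rw [← mul_sum, ← sum_filter, sum_const, nsmul_eq_mul]
      have h4 : ((univ.filter fun z => (P ω).CorrectAt (Wrong Dnf.eval) (F z)).card : ℝ) =
          ((n / l : ℕ) : ℝ) ^ l * (rst (P ω) F).correctRate (Wrong (par ι)) := by
        unfold Scheme.correctRate
        rw [hcard, mul_div_cancel₀ _ hNl.ne', ← hW, Set.ncard_eq_toFinset_card']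
        congr 2
        ext z
        simp only [mem_filter, mem_univ, true_and, Set.mem_toFinset, Set.mem_ofPred_eq]
        exact Iff.rfl
      rw [h4]
      have h5 := rst_rate (T := T) (P ω) F (Wrong Dnf.eval) δ
      rw [hW] at h5
      have h6 : 0 ≤ (rst (P ω) F).correctRate (Wrong (par ι)) := by
        unfold Scheme.correctRate
        positivity
      calc p ω * (((n / l : ℕ) : ℝ) ^ l * (rst (P ω) F).correctRate (Wrong (par ι)) *
            rejectRate (P ω) (Wrong Dnf.eval) T δ) ≤
            p ω * (((n / l : ℕ) : ℝ) ^ l * (rst (P ω) F).correctRate (Wrong (par ι)) *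
            rejectRate (rst (P ω) F) (Wrong (par ι)) T δ) :=
            mul_le_mul_of_nonneg_left (mul_le_mul_of_nonneg_left h5 (by positivity)) (hp ω)
        _ = _ := by ring
    refine (sum_le_sum fun ω _ => h3 ω).trans ?_
    rw [← mul_sum]
    refine mul_le_mul_of_nonneg_left (h1.trans (le_of_eq ?_)) hNl.le
    field_simp
  obtain ⟨z, -, hz⟩ := exists_le_of_sum_le (univ_nonempty) h2
  refine ⟨F z, ?_, ?_, hz⟩
  · rw [hF]
    exact parF_card ι z hl
  · rw [hF]
    exact parF_width ι z

end Pool.Agent.X246.DCP
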